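import Pool.Agent.H29.DL3
import Pool.Agent.H29.DL5
import Pool.Agent.H29.DL6

namespace Pool.Agent.Results.MP_32ff52_an.Full

open H29.DL MeasureTheory
open scoped ENNReal

/-- The real sequence space `ℓ_p`. -/
abbrev ellp (p : ℝ≥0∞) := lp (fun _ : ℕ => ℝ) p

/-- The real space `L_p[0,1]` for Lebesgue measure. -/
noncomputable abbrev Lp01 (p : ℝ≥0∞) := Lp ℝ p (volume.restrict (Set.Icc (0 : ℝ) 1))

theorem result (p : ℝ≥0∞) [Fact (1 ≤ p)] (hp : p ≠ ∞) :
    (IsomDualLifting (ellp p) ↔ p = 1) ∧ ¬ IsomDualLifting (Lp01 p) := by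
  refine ⟨⟨fun h => ?_, ?_⟩, fun h => ?_⟩
  · by_contra hp1
    exact lp_not_dl hp hp1 (dl_of h)
  · rintro rfl
    exact l1_dl
  · by_cases hp1 : p = 1
    · subst hp1
      obtain ⟨U⟩ := Lp_iso (p := 1) hp mu2 (fun h => by
        have : mu2 (Set.Ico 0 1 ×ˢ Set.Ico 0 1) = 1 := by simp [Measure.prod_prod]
        simp [h] at this)
      exact L1_not_dl ((dl_of h).transfer U)
    · obtain ⟨U⟩ := Lp_iso hp nuN (fun h => by simpa [h] using blk_vol 0)
      exact LpN_not_dl hp hp1 ((dl_of h).transfer U)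

end Pool.Agent.Results.MP_32ff52_an.Full
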